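import Mathlib

/-!
Lower bound for the elementary symmetric sums of a family of signs whose sum is large.
-/

set_option autoImplicit false

namespace Pool.Agent.W172.SP

open Finset

variable {ι : Type*} [DecidableEq ι]

/-- elementary symmetric sum -/
def es (s : Finset ι) (x : ι → ℝ) (k : ℕ) : ℝ := ∑ A ∈ s.powersetCard k, ∏ i ∈ A, x i

omit [DecidableEq ι] in
lemma es_zero (s : Finset ι) (x : ι → ℝ) : es s x 0 = 1 := by simp [es]

lemma es_insert {s : Finset ι} {p : ι} (hp : p ∉ s) (x : ι → ℝ) (k : ℕ) :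
    es (insert p s) x (k + 1) = es s x (k + 1) + x p * es s x k := by
  unfold es
  rw [powersetCard_succ_insert hp, sum_union, mul_sum]
  · congr 1
    rw [sum_image]
    · apply sum_congr rfl
      intro A hA
      rw [mem_powersetCard] at hA
      rw [prod_insert (fun h => hp (hA.1 h))]
    · intro A hA B hB h
      rw [mem_coe, mem_powersetCard] at hA hB
      have h1 : (insert p A).erase p = (insert p B).erase p := congrArg (fun C => C.erase p) h
      rwa [erase_insert (fun h => hp (hA.1 h)), erase_insert (fun h => hp (hB.1 h))] at h1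
  · rw [disjoint_left]
    intro A hA hA'
    rw [mem_powersetCard] at hA
    obtain ⟨B, _, rfl⟩ := mem_image.1 hA'
    exact hp (hA.1 (mem_insert_self _ _))

lemma es_one (s : Finset ι) (x : ι → ℝ) : es s x 1 = ∑ i ∈ s, x i := by
  induction s using Finset.induction_on with
  | empty =>
    unfold es
    rw [powersetCard_eq_empty.2 (by simp), sum_empty, sum_empty]
  | insert p s hp ih =>
    rw [show (1 : ℕ) = 0 + 1 from rfl, es_insert hp, sum_insert hp]
    rw [show (0 + 1 : ℕ) = 1 from rfl, ih, es_zero]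
    ring

/-- the three term recurrence -/
lemma es_rec (s : Finset ι) (x : ι → ℝ) (hx : ∀ i ∈ s, x i ^ 2 = 1) : ∀ k : ℕ,
    ((k : ℝ) + 2) * es s x (k + 2) + ((s.card : ℝ) - k) * es s x k =
      (∑ i ∈ s, x i) * es s x (k + 1) := by
  induction s using Finset.induction_on with
  | empty =>
    intro k
    have h1 : ∀ j, es (∅ : Finset ι) x (j + 1) = 0 := by
      intro j
      unfold es
      rw [powersetCard_eq_empty.2 (by simp), sum_empty]
    rw [h1 (k + 1), h1 k]
    rcases Nat.eq_zero_or_pos k with rfl | hk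
    · simp
    · obtain ⟨j, rfl⟩ : ∃ j, k = j + 1 := ⟨k - 1, by omega⟩
      rw [h1 j]
      simp
  | insert p s hp ih =>
    have ih' := ih (fun i hi => hx i (mem_insert_of_mem hi))
    have hxp : x p ^ 2 = 1 := hx p (mem_insert_self _ _)
    intro k
    rw [es_insert hp, es_insert hp, sum_insert hp, card_insert_of_notMem hp]
    rcases Nat.eq_zero_or_pos k with rfl | hk
    · have h0 := ih' 0
      rw [es_zero, es_zero]
      simp only [zero_add, es_one] at h0 ⊢
      rw [es_zero] at h0
      push_cast at h0 ⊢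
      linear_combination h0 - hxp
    · obtain ⟨j, rfl⟩ : ∃ j, k = j + 1 := ⟨k - 1, by omega⟩
      rw [es_insert hp]
      have h1 := ih' (j + 1)
      have h2 := ih' j
      rw [show j + 1 + 2 = (j + 2) + 1 from rfl] at h1 ⊢
      rw [show j + 1 + 1 = j + 2 from rfl] at h1 ⊢
      push_cast at h1 h2 ⊢
      linear_combination h1 + x p * h2 - es s x (j + 1) * hxp

lemma es_abs_step (s : Finset ι) (x : ι → ℝ) (hx : ∀ i ∈ s, x i ^ 2 = 1) (K : ℕ)
    (hK : 4 * (K : ℝ) * s.card ≤ (∑ i ∈ s, x i) ^ 2) : ∀ k : ℕ, k ≤ K →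
    |∑ i ∈ s, x i| * |es s x k| ≤ 2 * ((k : ℝ) + 1) * |es s x (k + 1)| := by
  intro k
  induction k with
  | zero =>
    intro _
    rw [es_zero, es_one]
    simp only [abs_one, mul_one, CharP.cast_eq_zero, zero_add]
    have := abs_nonneg (∑ i ∈ s, x i)
    linarith
  | succ k ih =>
    intro hk
    have ih' := ih (by omega)
    have hrec := es_rec s x hx k
    set S := ∑ i ∈ s, x i with hS
    set n : ℝ := (s.card : ℝ) with hn
    have hn0 : 0 ≤ n := by positivity
    -- |S| ≤ n
    have hSn : |S| ≤ n := by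
      calc |S| ≤ ∑ i ∈ s, |x i| := abs_sum_le_sum_abs _ _
        _ ≤ ∑ _i ∈ s, (1 : ℝ) := by
            apply sum_le_sum
            intro i hi
            have := hx i hi
            rw [← sq_abs] at this
            nlinarith [abs_nonneg (x i)]
        _ = n := by simp [hn]
    have hkK : ((k : ℝ) + 1) ≤ K := by exact_mod_cast hk
    have hSS : S ^ 2 = |S| ^ 2 := (sq_abs S).symm
    have hS0 := abs_nonneg S
    rcases hS0.eq_or_lt with h0 | hpos
    · rw [← h0]
      have := abs_nonneg (es s x (k + 1 + 1))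
      have : (0:ℝ) ≤ 2 * (((k + 1 : ℕ) : ℝ) + 1) * |es s x (k + 1 + 1)| := by positivity
      linarith
    · have hnpos : 0 < n := lt_of_lt_of_le hpos hSn
      -- k + 1 ≤ n / 4
      have hk4 : 4 * ((k : ℝ) + 1) ≤ n := by
        have h1 : 4 * ((k : ℝ) + 1) * n ≤ n * n := by
          calc 4 * ((k : ℝ) + 1) * n ≤ 4 * (K : ℝ) * n := by
                apply mul_le_mul_of_nonneg_right _ hn0
                linarith
            _ ≤ S ^ 2 := hK
            _ = |S| * |S| := by rw [hSS]; ring
            _ ≤ n * n := mul_le_mul hSn hSn hS0 hn0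
        exact le_of_mul_le_mul_right h1 hnpos
      have habs : |n - k| ≤ n := by
        rw [abs_le]
        constructor
        · linarith
        · have : (0 : ℝ) ≤ k := by positivity
          linarith
      have hmain : |S| * |es s x (k + 1)| ≤ ((k : ℝ) + 2) * |es s x (k + 2)| + n * |es s x k| := by
        rw [← abs_mul, ← hrec]
        refine (abs_add_le _ _).trans ?_
        rw [abs_mul, abs_mul]
        have : |(k : ℝ) + 2| = (k : ℝ) + 2 := abs_of_nonneg (by positivity)
        rw [this]
        have := mul_le_mul_of_nonneg_right habs (abs_nonneg (es s x k))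
        linarith
      -- n |e_k| ≤ |S| |e_{k+1}| / 2
      have h2 : n * |es s x k| ≤ |S| * |es s x (k + 1)| / 2 := by
        have h3 : |S| * (n * |es s x k|) ≤ |S| * (|S| * |es s x (k + 1)| / 2) := by
          calc |S| * (n * |es s x k|) = n * (|S| * |es s x k|) := by ring
            _ ≤ n * (2 * ((k : ℝ) + 1) * |es s x (k + 1)|) := mul_le_mul_of_nonneg_left ih' hn0
            _ = (4 * ((k : ℝ) + 1) * n) * |es s x (k + 1)| / 2 := by ring
            _ ≤ S ^ 2 * |es s x (k + 1)| / 2 := by
                have : 4 * ((k : ℝ) + 1) * n ≤ S ^ 2 := by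
                  refine le_trans ?_ hK
                  apply mul_le_mul_of_nonneg_right _ hn0
                  linarith
                have := mul_le_mul_of_nonneg_right this (abs_nonneg (es s x (k + 1)))
                linarith
            _ = |S| * (|S| * |es s x (k + 1)| / 2) := by rw [hSS]; ring
        exact le_of_mul_le_mul_left h3 hpos
      push_cast
      have e1 : k + 1 + 1 = k + 2 := rfl
      rw [e1]
      linarith

/-- `|e_k| ≥ |S|^k / (2^k k!)` -/
lemma es_lower (s : Finset ι) (x : ι → ℝ) (hx : ∀ i ∈ s, x i ^ 2 = 1) (K : ℕ)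
    (hK : 4 * (K : ℝ) * s.card ≤ (∑ i ∈ s, x i) ^ 2) (k : ℕ) (hk : k ≤ K) :
    |∑ i ∈ s, x i| ^ k ≤ 2 ^ k * (k.factorial : ℝ) * |es s x k| := by
  induction k with
  | zero => simp [es_zero]
  | succ k ih =>
    have ih' := ih (by omega)
    have h1 := es_abs_step s x hx K hK k (by omega)
    calc |∑ i ∈ s, x i| ^ (k + 1) = |∑ i ∈ s, x i| ^ k * |∑ i ∈ s, x i| := pow_succ _ _
      _ ≤ (2 ^ k * (k.factorial : ℝ) * |es s x k|) * |∑ i ∈ s, x i| :=
          mul_le_mul_of_nonneg_right ih' (abs_nonneg _)
      _ = 2 ^ k * (k.factorial : ℝ) * (|∑ i ∈ s, x i| * |es s x k|) := by ring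
      _ ≤ 2 ^ k * (k.factorial : ℝ) * (2 * ((k : ℝ) + 1) * |es s x (k + 1)|) :=
          mul_le_mul_of_nonneg_left h1 (by positivity)
      _ = 2 ^ (k + 1) * ((k + 1).factorial : ℝ) * |es s x (k + 1)| := by
          rw [Nat.factorial_succ]
          push_cast
          ring

/-- the same with zeros allowed -/
lemma es_lower' (s : Finset ι) (x : ι → ℝ) (hx : ∀ i ∈ s, x i = 0 ∨ x i ^ 2 = 1) (K : ℕ)
    (hK : 4 * (K : ℝ) * s.card ≤ (∑ i ∈ s, x i) ^ 2) (k : ℕ) (hk : k ≤ K) :
    |∑ i ∈ s, x i| ^ k ≤ 2 ^ k * (k.factorial : ℝ) * |es s x k| := by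
  classical
  set t := s.filter (fun i => x i ≠ 0) with ht
  have h1 : ∑ i ∈ t, x i = ∑ i ∈ s, x i := by
    rw [ht, sum_filter_ne_zero]
  have h2 : es t x k = es s x k := by
    unfold es
    apply sum_subset
    · intro A hA
      rw [mem_powersetCard] at hA ⊢
      exact ⟨hA.1.trans (filter_subset _ _), hA.2⟩
    · intro A hA hA'
      rw [mem_powersetCard] at hA hA'
      have : ∃ i ∈ A, x i = 0 := by
        by_contra hcon
        push Not at hcon
        exact hA' ⟨fun i hi => mem_filter.2 ⟨hA.1 hi, hcon i hi⟩, hA.2⟩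
      obtain ⟨i, hi, hi0⟩ := this
      exact prod_eq_zero hi hi0
  have h3 : (t.card : ℝ) ≤ s.card := by exact_mod_cast card_le_card (filter_subset _ _)
  have := es_lower t x (fun i hi => by
    rw [ht, mem_filter] at hi
    exact (hx i hi.1).resolve_left hi.2) K (by
      rw [h1]
      refine le_trans ?_ hK
      apply mul_le_mul_of_nonneg_left h3
      positivity) k hk
  rwa [h1, h2] at this

end Pool.Agent.W172.SP
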