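import Mathlib
import Pool.Agent.H423R2.RZL.HBLS
import Pool.Agent.W172.SP.Esymm

/-!
Heath-Brown's large sieve applied to products of `k` small primes.
-/

set_option autoImplicit false

namespace Pool.Agent.W172.SP

open Finset Pool.Agent.H306R2.RZ

lemma js_mul_l (a b : ℤ) (n : ℕ) : js (a * b) n = js a n * js b n := by
  unfold js
  rw [jacobiSym.mul_left]
  push_cast
  ring

lemma js_mul_r (a : ℤ) {m n : ℕ} (hm : m ≠ 0) (hn : n ≠ 0) : js a (m * n) = js a m * js a n := by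
  have : NeZero m := ⟨hm⟩
  have : NeZero n := ⟨hn⟩
  unfold js
  rw [jacobiSym.mul_right]
  push_cast
  ring

lemma js_prod (a : ℤ) (A : Finset ℕ) (h : ∀ p ∈ A, p ≠ 0) :
    js a (∏ p ∈ A, p) = ∏ p ∈ A, js a p := by
  induction A using Finset.induction_on with
  | empty => simp [js]
  | insert p A hp ih =>
    rw [prod_insert hp, prod_insert hp, js_mul_r a (h p (mem_insert_self _ _)),
      ih (fun q hq => h q (mem_insert_of_mem hq))]
    exact prod_ne_zero_iff.2 (fun q hq => h q (mem_insert_of_mem hq))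

lemma js_sq_le (a : ℤ) (n : ℕ) : js a n ^ 2 ≤ 1 := by
  unfold js
  rcases jacobiSym.trichotomy a n with h | h | h <;> rw [h] <;> norm_num

lemma js_val (a : ℤ) (n : ℕ) : js a n = 0 ∨ js a n ^ 2 = 1 := by
  unfold js
  rcases jacobiSym.trichotomy a n with h | h | h <;> rw [h] <;> norm_num

lemma prod_mem_osf {A : Finset ℕ} {X Y k : ℕ} (hA : ∀ p ∈ A, p.Prime ∧ Odd p ∧ p ≤ Y)
    (hk : A.card = k) (hY : Y ^ k ≤ X) : ∏ p ∈ A, p ∈ osf X := by
  unfold osf
  rw [mem_filter, mem_Icc]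
  have hpos : 0 < ∏ p ∈ A, p := Finset.prod_pos fun p hp => (hA p hp).1.pos
  refine ⟨⟨hpos, ?_⟩, ?_, ?_⟩
  · calc ∏ p ∈ A, p ≤ ∏ _p ∈ A, Y := Finset.prod_le_prod' fun p hp => (hA p hp).2.2
      _ = Y ^ k := by rw [prod_const, hk]
      _ ≤ X := hY
  · refine Finset.prod_induction (fun p => p) (fun n => Odd n) (fun a b ha hb => ha.mul hb)
      odd_one (fun p hp => (hA p hp).2.1)
  · clear hk hY hpos
    induction A using Finset.induction_on with
    | empty => simp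
    | insert p A hp ih =>
      rw [prod_insert hp]
      have hpp := (hA p (mem_insert_self _ _)).1
      have hco : Nat.Coprime p (∏ q ∈ A, q) := by
        apply Nat.Coprime.prod_right
        intro q hq
        exact (Nat.coprime_primes hpp (hA q (mem_insert_of_mem hq)).1).2 (fun h => hp (h ▸ hq))
      rw [Nat.squarefree_mul hco]
      exact ⟨hpp.prime.squarefree, ih fun q hq => hA q (mem_insert_of_mem hq)⟩

theorem moment (ε : ℝ) (hε : 0 < ε) : ∃ C : ℝ, 0 < C ∧ ∀ (X Y k : ℕ) (P : Finset ℕ), 1 ≤ X →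
    (∀ p ∈ P, p.Prime ∧ Odd p ∧ p ≤ Y) → Y ^ k ≤ X →
    ∑ m ∈ sqf X, (es P (fun p => js (-(m : ℤ)) p) k) ^ 2 ≤
      C * (X : ℝ) ^ (1 + ε) * (P.card.choose k) := by
  obtain ⟨C, hC, h⟩ := Pool.Agent.H423R2.RZL.HBLSn.HBLS (ε / 2) (by linarith)
  refine ⟨2 * C, by linarith, ?_⟩
  intro X Y k P hX hP hY
  set T := (P.powersetCard k).image (fun A => ∏ p ∈ A, p) with hT
  have hinj : Set.InjOn (fun A : Finset ℕ => ∏ p ∈ A, p) (P.powersetCard k) := by
    intro A hA B hB hAB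
    rw [mem_coe, mem_powersetCard] at hA hB
    have h1 := Nat.primeFactors_prod (s := A) (fun p hp => (hP p (hA.1 hp)).1)
    have h2 := Nat.primeFactors_prod (s := B) (fun p hp => (hP p (hB.1 hp)).1)
    simp only at hAB
    rw [← h1, ← h2, hAB]
  have hTsub : T ⊆ osf X := by
    intro n hn
    obtain ⟨A, hA, rfl⟩ := mem_image.1 hn
    rw [mem_powersetCard] at hA
    exact prod_mem_osf (fun p hp => hP p (hA.1 hp)) hA.2 hY
  have hTcard : T.card = P.card.choose k := by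
    rw [hT, card_image_of_injOn hinj, card_powersetCard]
  let a : ℕ → ℂ := fun n => if n ∈ T then ((js (-1) n : ℝ) : ℂ) else 0
  have h1 := h X X hX hX a
  have hX0 : (0 : ℝ) < X := by exact_mod_cast hX
  have hlhs : ∀ m : ℕ, ∑ n ∈ osf X, a n * (js m n : ℂ) =
      ((es P (fun p => js (-(m : ℤ)) p) k : ℝ) : ℂ) := by
    intro m
    have e1 : ∑ n ∈ osf X, a n * (js m n : ℂ) = ∑ n ∈ T, ((js (-1) n * js m n : ℝ) : ℂ) := by
      rw [← sum_subset hTsub]
      · apply sum_congr rfl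
        intro n hn
        simp only [a, if_pos hn]
        push_cast
        ring
      · intro n _ hn
        simp only [a, if_neg hn, zero_mul]
    rw [e1, hT, sum_image hinj]
    unfold es
    push_cast
    apply sum_congr rfl
    intro A hA
    rw [mem_powersetCard] at hA
    have hne : ∀ p ∈ A, p ≠ 0 := fun p hp => (hP p (hA.1 hp)).1.ne_zero
    have e2 : js (-1) (∏ p ∈ A, p) * js m (∏ p ∈ A, p) = ∏ p ∈ A, js (-(m : ℤ)) p := by
      rw [← js_mul_l, js_prod _ A hne]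
      apply prod_congr rfl
      intro p _
      congr 1
      ring
    rw [← Complex.ofReal_mul, e2, Complex.ofReal_prod]
  have hrhs : ∑ n ∈ osf X, ‖a n‖ ^ 2 ≤ (P.card.choose k : ℝ) := by
    rw [← hTcard]
    calc ∑ n ∈ osf X, ‖a n‖ ^ 2 = ∑ n ∈ T, ‖a n‖ ^ 2 := by
          rw [← sum_subset hTsub]
          intro n _ hn
          simp only [a, if_neg hn, norm_zero]
          ring
      _ ≤ ∑ _n ∈ T, (1 : ℝ) := by
          apply sum_le_sum
          intro n hn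
          simp only [a, if_pos hn]
          rw [Complex.norm_real, Real.norm_eq_abs, sq_abs]
          exact js_sq_le _ _
      _ = T.card := by simp
  have h2 : ∑ m ∈ sqf X, ‖∑ n ∈ osf X, a n * (js m n : ℂ)‖ ^ 2 =
      ∑ m ∈ sqf X, (es P (fun p => js (-(m : ℤ)) p) k) ^ 2 := by
    apply sum_congr rfl
    intro m _
    rw [hlhs, Complex.norm_real, Real.norm_eq_abs, sq_abs]
  rw [h2] at h1
  refine h1.trans ?_
  have e4 : ((X : ℝ) * X) ^ (ε / 2) = (X : ℝ) ^ ε := by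
    rw [← sq, ← Real.rpow_natCast, ← Real.rpow_mul hX0.le]
    congr 1
    push_cast
    ring
  rw [e4]
  have e5 : C * (X : ℝ) ^ ε * ((X : ℝ) + X) = 2 * C * (X : ℝ) ^ (1 + ε) := by
    rw [Real.rpow_add hX0, Real.rpow_one]
    ring
  rw [e5]
  exact mul_le_mul_of_nonneg_left hrhs (by positivity)

/-- The number of squarefree `m ≤ X` for which the sum of the Jacobi symbols `(-m | p)` over a set
`P` of odd primes is large. -/
theorem count (ε : ℝ) (hε : 0 < ε) : ∃ C : ℝ, 0 < C ∧ ∀ (X Y k : ℕ) (P : Finset ℕ) (δ : ℝ),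
    1 ≤ X → (∀ p ∈ P, p.Prime ∧ Odd p ∧ p ≤ Y) → Y ^ k ≤ X → 0 < δ → 0 < P.card →
    4 * (k : ℝ) ≤ δ ^ 2 * P.card →
    (((sqf X).filter fun m : ℕ => δ * P.card ≤ |∑ p ∈ P, js (-(m : ℤ)) p|).card : ℝ) ≤
      C * (X : ℝ) ^ (1 + ε) * (4 * k / (δ ^ 2 * P.card)) ^ k := by
  obtain ⟨C, hC, h⟩ := moment ε hε
  refine ⟨C, hC, ?_⟩
  intro X Y k P δ hX hP hY hδ hcard hk
  set n : ℝ := (P.card : ℝ) with hn
  have hn0 : 0 < n := by rw [hn]; exact_mod_cast hcard
  set E := (sqf X).filter fun m : ℕ => δ * n ≤ |∑ p ∈ P, js (-(m : ℤ)) p| with hE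
  have hlow : ∀ m ∈ E, ((δ * n) ^ k / (2 ^ k * k.factorial)) ^ 2 ≤
      (es P (fun p => js (-(m : ℤ)) p) k) ^ 2 := by
    intro m hm
    rw [hE, mem_filter] at hm
    have h1 := es_lower' P (fun p => js (-(m : ℤ)) p) (fun p _ => js_val _ _) k (by
      rw [← sq_abs]
      calc 4 * (k : ℝ) * n ≤ δ ^ 2 * n * n := mul_le_mul_of_nonneg_right hk hn0.le
        _ = (δ * n) ^ 2 := by ring
        _ ≤ |∑ p ∈ P, js (-(m : ℤ)) p| ^ 2 := by
            apply pow_le_pow_left₀ (by positivity) hm.2) k le_rfl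
    have h2 : (δ * n) ^ k ≤ |∑ p ∈ P, js (-(m : ℤ)) p| ^ k :=
      pow_le_pow_left₀ (by positivity) hm.2 k
    rw [← sq_abs (es P (fun p => js (-(m : ℤ)) p) k)]
    apply pow_le_pow_left₀ (by positivity)
    rw [div_le_iff₀ (by positivity)]
    calc (δ * n) ^ k ≤ _ := h2
      _ ≤ _ := h1
      _ = _ := by ring
  have hsum : (E.card : ℝ) * ((δ * n) ^ k / (2 ^ k * k.factorial)) ^ 2 ≤
      C * (X : ℝ) ^ (1 + ε) * (P.card.choose k) := by
    calc (E.card : ℝ) * ((δ * n) ^ k / (2 ^ k * k.factorial)) ^ 2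
        = ∑ _m ∈ E, ((δ * n) ^ k / (2 ^ k * k.factorial)) ^ 2 := by
          rw [sum_const, nsmul_eq_mul]
      _ ≤ ∑ m ∈ E, (es P (fun p => js (-(m : ℤ)) p) k) ^ 2 := sum_le_sum hlow
      _ ≤ ∑ m ∈ sqf X, (es P (fun p => js (-(m : ℤ)) p) k) ^ 2 :=
          sum_le_sum_of_subset_of_nonneg (filter_subset _ _) (fun _ _ _ => sq_nonneg _)
      _ ≤ _ := h X Y k P hX hP hY
  have hch : (P.card.choose k : ℝ) ≤ n ^ k / k.factorial := by
    rw [hn]
    exact Nat.choose_le_pow_div k P.card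
  have hfac : (0 : ℝ) < k.factorial := by exact_mod_cast k.factorial_pos
  have hfk : (k.factorial : ℝ) ≤ (k : ℝ) ^ k := by exact_mod_cast k.factorial_le_pow
  have hX0 : (0 : ℝ) < X := by exact_mod_cast hX
  have hA : 0 ≤ C * (X : ℝ) ^ (1 + ε) := by positivity
  have hD : (0 : ℝ) < ((δ * n) ^ k / (2 ^ k * k.factorial)) ^ 2 := by positivity
  have h3 : (E.card : ℝ) ≤ C * (X : ℝ) ^ (1 + ε) * (n ^ k / k.factorial) /
      ((δ * n) ^ k / (2 ^ k * k.factorial)) ^ 2 := by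
    rw [le_div_iff₀ hD]
    exact hsum.trans (mul_le_mul_of_nonneg_left hch hA)
  refine h3.trans ?_
  rw [mul_div_assoc]
  apply mul_le_mul_of_nonneg_left _ hA
  have e1 : n ^ k / k.factorial / ((δ * n) ^ k / (2 ^ k * k.factorial)) ^ 2 =
      (k.factorial : ℝ) * (4 / (δ ^ 2 * n)) ^ k := by
    rw [div_pow (4 : ℝ), mul_pow (δ ^ 2) n, mul_pow δ n, show (4 : ℝ) = 2 * 2 by norm_num, mul_pow,
      ← pow_mul, mul_comm 2 k, pow_mul]
    field_simp
  have e2 : (4 * (k : ℝ) / (δ ^ 2 * n)) ^ k = (k : ℝ) ^ k * (4 / (δ ^ 2 * n)) ^ k := by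
    rw [← mul_pow]
    congr 1
    ring
  rw [e1, e2]
  apply mul_le_mul_of_nonneg_right hfk
  positivity

end Pool.Agent.W172.SP
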