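import Mathlib
import Pool.Agent.W172.SP.Moment

/-!
The bound `X^(1/2+ε)` for the number of squarefree `m ≤ X` with biased small primes.
-/

set_option autoImplicit false

namespace Pool.Agent.W172.SP

open Finset Pool.Agent.H306R2.RZ Filter

/-- `(log t)^2 (log log t)^2` -/
noncomputable def gg (t : ℝ) : ℝ := Real.log t ^ 2 * Real.log (Real.log t) ^ 2

/-- odd primes up to `Y` -/
def oddPrimes (Y : ℕ) : Finset ℕ := (Icc 3 Y).filter Nat.Prime

lemma mem_oddPrimes {Y p : ℕ} : p ∈ oddPrimes Y ↔ p.Prime ∧ Odd p ∧ p ≤ Y := by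
  unfold oddPrimes
  rw [mem_filter, mem_Icc]
  constructor
  · rintro ⟨⟨h1, h2⟩, h3⟩
    exact ⟨h3, h3.odd_of_ne_two (by omega), h2⟩
  · rintro ⟨h1, h2, h3⟩
    have := h1.two_le
    have : p ≠ 2 := by
      rintro rfl
      exact absurd h2 (by decide)
    exact ⟨⟨by omega, h3⟩, h1⟩

lemma card_oddPrimes (Y : ℕ) (hY : 2 ≤ Y) : (oddPrimes Y).card + 1 = Nat.primeCounting Y := by
  have h1 : Nat.primeCounting Y = ((range (Y + 1)).filter Nat.Prime).card := by
    rw [Nat.primeCounting, Nat.primeCounting', Nat.count_eq_card_filter_range]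
  rw [h1]
  have h2 : (range (Y + 1)).filter Nat.Prime = insert 2 (oddPrimes Y) := by
    ext p
    rw [mem_filter, mem_range, mem_insert, mem_oddPrimes]
    constructor
    · rintro ⟨h3, h4⟩
      rcases h4.eq_two_or_odd' with h | h
      · exact Or.inl h
      · exact Or.inr ⟨h4, h, by omega⟩
    · rintro (rfl | ⟨h3, h4, h5⟩)
      · exact ⟨by omega, Nat.prime_two⟩
      · exact ⟨by omega, h3⟩
  rw [h2, card_insert_of_notMem]
  rw [mem_oddPrimes]
  rintro ⟨_, h, _⟩
  exact absurd h (by decide)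

lemma oddPrimes_lower : ∀ᶠ Y : ℕ in atTop, (Y : ℝ) / (2 * Real.log Y) ≤ (oddPrimes Y).card := by
  have h1 : ∀ᶠ Y : ℝ in atTop, Real.log Y ≤ Y / 20 := by
    have := (isLittleO_log_rpow_atTop (r := 1) one_pos).bound (show (0:ℝ) < 1 / 20 by norm_num)
    filter_upwards [this, eventually_ge_atTop 1] with Y hY hY1
    rw [Real.rpow_one, Real.norm_of_nonneg (Real.log_nonneg hY1),
      Real.norm_of_nonneg (by linarith)] at hY
    linarith
  have h2 := (tendsto_natCast_atTop_atTop (R := ℝ)).eventually h1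
  filter_upwards [h2, eventually_ge_atTop 100] with Y hY hY100
  have hYr : (100 : ℝ) ≤ Y := by exact_mod_cast hY100
  have hlog : 0 < Real.log Y := Real.log_pos (by linarith)
  have h3 := Chebyshev.pi_ge Y
  have h4 : ((oddPrimes Y).card : ℝ) = (Nat.primeCounting Y : ℝ) - 1 := by
    have := card_oddPrimes Y (by omega)
    rw [← this]
    push_cast
    ring
  rw [h4]
  have h5 : Real.log ((Y : ℝ) + 1) ≤ Real.log Y + 1 := by
    have h6 : (Y : ℝ) + 1 ≤ Y * Real.exp 1 := by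
      have := Real.add_one_le_exp (1 : ℝ)
      nlinarith
    calc Real.log ((Y : ℝ) + 1) ≤ Real.log (Y * Real.exp 1) := Real.log_le_log (by linarith) h6
      _ = Real.log Y + 1 := by rw [Real.log_mul (by linarith) (Real.exp_pos 1).ne', Real.log_exp]
  have h7 : (0.6931471803 : ℝ) < Real.log 2 := Real.log_two_gt_d9
  have h8 : (Y : ℝ) / (2 * Real.log Y) = (Y / 2) / Real.log Y := by
    field_simp
  have h9 : (Y : ℝ) / 2 + Real.log Y ≤ Y * Real.log 2 - Real.log ((Y : ℝ) + 1) := by nlinarith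
  have h10 : ((Y : ℝ) / 2) / Real.log Y + 1 ≤ (Y * Real.log 2 - Real.log ((Y : ℝ) + 1)) / Real.log Y := by
    rw [div_add_one hlog.ne']
    exact div_le_div_of_nonneg_right h9 hlog.le
  rw [h8]
  linarith

/-- the analytic facts about `L = log X`, `l = log L`, `Y = ⌊g(X)⌋` for large `X` -/
lemma eventually_facts (ε K : ℝ) (hε : 0 < ε) : ∀ᶠ X : ℕ in atTop,
    2 ≤ X ∧ 1 ≤ Real.log (Real.log X) ∧ K ≤ Real.log (Real.log X) ∧
    K * Real.log (Real.log X) ≤ Real.log X ∧ gg X ≤ (X : ℝ) ^ (2 * ε) ∧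
    (⌊gg X⌋₊ : ℝ) / (2 * Real.log (⌊gg X⌋₊ : ℝ)) ≤ (oddPrimes ⌊gg X⌋₊).card := by
  have hlog : Tendsto (fun X : ℕ => Real.log (X : ℝ)) atTop atTop :=
    Real.tendsto_log_atTop.comp tendsto_natCast_atTop_atTop
  have hloglog : Tendsto (fun X : ℕ => Real.log (Real.log (X : ℝ))) atTop atTop :=
    Real.tendsto_log_atTop.comp hlog
  have hgg : Tendsto (fun X : ℕ => gg (X : ℝ)) atTop atTop := by
    have h1 : Tendsto (fun X : ℕ => Real.log (X : ℝ)) atTop atTop := hlog
    refine tendsto_atTop_mono' _ ?_ h1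
    filter_upwards [hlog.eventually_ge_atTop 1, hloglog.eventually_ge_atTop 1] with X h2 h3
    unfold gg
    have h4 : (1 : ℝ) ≤ Real.log (Real.log X) ^ 2 := by nlinarith
    have h5 : Real.log (X : ℝ) ≤ Real.log (X : ℝ) ^ 2 := by nlinarith
    nlinarith [sq_nonneg (Real.log (X : ℝ))]
  have hfloor : Tendsto (fun X : ℕ => ⌊gg (X : ℝ)⌋₊) atTop atTop :=
    tendsto_nat_floor_atTop.comp hgg
  have hb1 : ∀ᶠ X : ℕ in atTop, Real.log (X : ℝ) ≤ (X : ℝ) ^ (ε / 2) := by
    have := (isLittleO_log_rpow_atTop (r := ε / 2) (by linarith)).bound (show (0:ℝ) < 1 by norm_num)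
    have h2 := (tendsto_natCast_atTop_atTop (R := ℝ)).eventually this
    filter_upwards [h2, eventually_ge_atTop 1] with X hX hX1
    have hXr : (1 : ℝ) ≤ X := by exact_mod_cast hX1
    rw [Real.norm_of_nonneg (Real.log_nonneg hXr), Real.norm_of_nonneg (by positivity)] at hX
    linarith
  have hb2 : ∀ᶠ X : ℕ in atTop, K * Real.log (Real.log X) ≤ Real.log X := by
    have h1 : ∀ᶠ L : ℝ in atTop, K * Real.log L ≤ L := by
      have := (isLittleO_log_rpow_atTop (r := 1) one_pos).bound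
        (show (0:ℝ) < 1 / (|K| + 1) by positivity)
      filter_upwards [this, eventually_ge_atTop 1] with L hL hL1
      rw [Real.rpow_one, Real.norm_of_nonneg (Real.log_nonneg hL1),
        Real.norm_of_nonneg (by linarith)] at hL
      have hK : 0 < |K| + 1 := by positivity
      have h0 := Real.log_nonneg hL1
      have : (|K| + 1) * Real.log L ≤ L := by
        calc (|K| + 1) * Real.log L ≤ (|K| + 1) * (1 / (|K| + 1) * L) :=
              mul_le_mul_of_nonneg_left hL hK.le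
          _ = L := by field_simp
      nlinarith [le_abs_self K]
    exact hlog.eventually h1
  filter_upwards [eventually_ge_atTop 2, hloglog.eventually_ge_atTop 1, hloglog.eventually_ge_atTop K,
    hb2, hb1, hfloor.eventually oddPrimes_lower, hlog.eventually_ge_atTop 1] with X h1 h2 h3 h4 h5 h6 h7
  refine ⟨h1, h2, h3, h4, ?_, h6⟩
  have hX0 : (0 : ℝ) < X := by
    have : (2 : ℝ) ≤ X := by exact_mod_cast h1
    linarith
  have h8 : Real.log (Real.log X) ≤ Real.log X := by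
    have := Real.log_le_sub_one_of_pos (show 0 < Real.log (X : ℝ) by linarith)
    linarith
  unfold gg
  calc Real.log (X : ℝ) ^ 2 * Real.log (Real.log X) ^ 2
      ≤ Real.log (X : ℝ) ^ 2 * Real.log (X : ℝ) ^ 2 := by
        apply mul_le_mul_of_nonneg_left _ (by positivity)
        exact pow_le_pow_left₀ (by linarith) h8 2
    _ = Real.log (X : ℝ) ^ 4 := by ring
    _ ≤ ((X : ℝ) ^ (ε / 2)) ^ 4 := pow_le_pow_left₀ (by linarith) h5 4
    _ = (X : ℝ) ^ (2 * ε) := by
        rw [← Real.rpow_natCast, ← Real.rpow_mul hX0.le]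
        congr 1
        push_cast
        ring

theorem block (ε δ : ℝ) (hε : 0 < ε) (hδ : 0 < δ) : ∃ C : ℝ, 0 < C ∧ ∀ᶠ X : ℕ in atTop,
    (((sqf X).filter fun m : ℕ => δ * (oddPrimes ⌊gg X⌋₊).card ≤
      |∑ p ∈ oddPrimes ⌊gg X⌋₊, js (-(m : ℤ)) p|).card : ℝ) ≤ C * (X : ℝ) ^ (1 / 2 + ε) := by
  obtain ⟨C, hC, h⟩ := count (ε / 2) (by linarith)
  refine ⟨C, hC, ?_⟩
  filter_upwards [eventually_facts (ε / 2) (16 / δ ^ 2) (by linarith)] with X hX
  obtain ⟨hX2, hl1, hlK, -, hgX, hP⟩ := hX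
  set L := Real.log (X : ℝ) with hL
  set l := Real.log L with hl
  set Y := ⌊gg (X : ℝ)⌋₊ with hY
  have hXr : (2 : ℝ) ≤ X := by exact_mod_cast hX2
  have hX0 : (0 : ℝ) < X := by linarith
  have hLl : l + 1 ≤ L := by
    have hLpos : 0 < L := by
      by_contra hcon
      push Not at hcon
      have h1 : L = 0 := le_antisymm hcon (Real.log_nonneg (by linarith))
      rw [hl, h1, Real.log_zero] at hl1
      linarith
    have := Real.log_le_sub_one_of_pos hLpos
    linarith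
  have hL2 : 2 ≤ L := by linarith
  have hg : gg (X : ℝ) = L ^ 2 * l ^ 2 := rfl
  have hg4 : 4 ≤ gg (X : ℝ) := by
    rw [hg]
    have : 4 ≤ L ^ 2 := by nlinarith
    have : 1 ≤ l ^ 2 := by nlinarith
    nlinarith
  have hYle : (Y : ℝ) ≤ gg X := Nat.floor_le (by linarith)
  have hYlt : gg (X : ℝ) < Y + 1 := Nat.lt_floor_add_one _
  have hYhalf : gg (X : ℝ) / 2 ≤ Y := by linarith
  have hY3r : (3 : ℝ) < Y + 1 := by linarith
  have hY3 : 3 ≤ Y := by
    have : (2 : ℝ) < Y := by linarith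
    have : 2 < Y := by exact_mod_cast this
    omega
  have hY0 : (0 : ℝ) < Y := by linarith
  have hlogY : 0 < Real.log Y := Real.log_pos (by linarith)
  set k := Nat.log Y X with hk
  have hk1 : Y ^ k ≤ X := Nat.pow_log_le_self Y (by omega)
  have hk2 : X < Y ^ (k + 1) := Nat.lt_pow_succ_log_self (by omega) X
  set n : ℝ := ((oddPrimes Y).card : ℝ) with hn
  have hn0 : 0 < n := lt_of_lt_of_le (by positivity) hP
  have hcard : 0 < (oddPrimes Y).card := by
    rw [hn] at hn0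
    exact_mod_cast hn0
  -- k log Y ≤ L
  have hklog : (k : ℝ) * Real.log Y ≤ L := by
    have h1 : ((Y : ℝ) ^ k) ≤ X := by exact_mod_cast hk1
    have h2 := Real.log_le_log (by positivity) h1
    rwa [Real.log_pow] at h2
  -- r = 4 k / (δ² n) satisfies r² ≤ 1 / Y
  set r : ℝ := 4 * k / (δ ^ 2 * n) with hr
  have hr0 : 0 ≤ r := by positivity
  have hr1 : r ≤ 8 * L / (δ ^ 2 * Y) := by
    rw [hr, div_le_div_iff₀ (by positivity) (by positivity)]
    have h1 : (Y : ℝ) ≤ 2 * Real.log Y * n := by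
      rw [div_le_iff₀ (by positivity)] at hP
      linarith
    calc 4 * (k : ℝ) * (δ ^ 2 * Y) ≤ 4 * (k : ℝ) * (δ ^ 2 * (2 * Real.log Y * n)) := by
          apply mul_le_mul_of_nonneg_left _ (by positivity)
          exact mul_le_mul_of_nonneg_left h1 (by positivity)
      _ = 8 * (k * Real.log Y) * (δ ^ 2 * n) := by ring
      _ ≤ 8 * L * (δ ^ 2 * n) := by
          apply mul_le_mul_of_nonneg_right _ (by positivity)
          linarith
  have hδl : 16 ≤ δ ^ 2 * l := by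
    rw [div_le_iff₀ (by positivity)] at hlK
    linarith
  have hr2 : r ^ 2 ≤ 1 / Y := by
    have h1 : r ^ 2 ≤ (8 * L / (δ ^ 2 * Y)) ^ 2 := pow_le_pow_left₀ hr0 hr1 2
    refine h1.trans ?_
    rw [div_pow, div_le_div_iff₀ (by positivity) hY0]
    have h2 : (16 : ℝ) ^ 2 ≤ (δ ^ 2 * l) ^ 2 := pow_le_pow_left₀ (by norm_num) hδl 2
    have h3 : L ^ 2 * l ^ 2 / 2 ≤ Y := by rw [← hg]; exact hYhalf
    have h4 : 64 * L ^ 2 ≤ δ ^ 4 * Y := by
      calc 64 * L ^ 2 ≤ L ^ 2 * (16 ^ 2 / 2) := by nlinarith [sq_nonneg L]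
        _ ≤ L ^ 2 * ((δ ^ 2 * l) ^ 2 / 2) := by
            apply mul_le_mul_of_nonneg_left _ (sq_nonneg L)
            linarith
        _ = δ ^ 4 * (L ^ 2 * l ^ 2 / 2) := by ring
        _ ≤ δ ^ 4 * Y := mul_le_mul_of_nonneg_left h3 (by positivity)
    calc (8 * L) ^ 2 * Y = (64 * L ^ 2) * Y := by ring
      _ ≤ (δ ^ 4 * Y) * Y := mul_le_mul_of_nonneg_right h4 hY0.le
      _ = 1 * (δ ^ 2 * Y) ^ 2 := by ring
  have hr3 : r ≤ 1 := by
    have h1 : r ^ 2 ≤ 1 := by
      refine hr2.trans ?_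
      rw [div_le_one hY0]
      linarith
    nlinarith
  have hkn : 4 * (k : ℝ) ≤ δ ^ 2 * n := by
    rwa [hr, div_le_one (by positivity)] at hr3
  have hcount := h X Y k (oddPrimes Y) δ (by omega) (fun p hp => mem_oddPrimes.1 hp) hk1 hδ hcard hkn
  refine hcount.trans ?_
  -- r ^ k ≤ sqrt (Y / X)
  have hrk : r ^ k ≤ Real.sqrt (Y / X) := by
    apply Real.le_sqrt_of_sq_le
    calc (r ^ k) ^ 2 = (r ^ 2) ^ k := by rw [← pow_mul, mul_comm, pow_mul]
      _ ≤ (1 / (Y : ℝ)) ^ k := pow_le_pow_left₀ (sq_nonneg r) hr2 k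
      _ = Y / (Y : ℝ) ^ (k + 1) := by
          rw [pow_succ, one_div, inv_pow]
          field_simp
      _ ≤ Y / X := by
          apply div_le_div_of_nonneg_left hY0.le hX0
          exact_mod_cast hk2.le
  have hsq : Real.sqrt (Y / X) ≤ (X : ℝ) ^ (ε / 2 - 1 / 2) := by
    rw [Real.sqrt_eq_rpow]
    have h1 : (Y : ℝ) / X ≤ (X : ℝ) ^ (ε - 1) := by
      rw [div_le_iff₀ hX0]
      calc (Y : ℝ) ≤ gg X := hYle
        _ ≤ (X : ℝ) ^ (2 * (ε / 2)) := hgX
        _ = (X : ℝ) ^ (ε - 1) * X := by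
            nth_rewrite 3 [← Real.rpow_one (X : ℝ)]
            rw [← Real.rpow_add hX0]
            congr 1
            ring
    calc ((Y : ℝ) / X) ^ (1 / 2 : ℝ) ≤ ((X : ℝ) ^ (ε - 1)) ^ (1 / 2 : ℝ) :=
          Real.rpow_le_rpow (by positivity) h1 (by norm_num)
      _ = (X : ℝ) ^ (ε / 2 - 1 / 2) := by
          rw [← Real.rpow_mul hX0.le]
          congr 1
          ring
  calc C * (X : ℝ) ^ (1 + ε / 2) * r ^ k
      ≤ C * (X : ℝ) ^ (1 + ε / 2) * (X : ℝ) ^ (ε / 2 - 1 / 2) := by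
        apply mul_le_mul_of_nonneg_left (hrk.trans hsq) (by positivity)
    _ = C * (X : ℝ) ^ (1 / 2 + ε) := by
        rw [mul_assoc, ← Real.rpow_add hX0]
        congr 2
        ring

end Pool.Agent.W172.SP
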