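import Mathlib
import Pool.Agent.W172.SP.Block

/-!
From squarefree `m` to negative fundamental discriminants; dyadic summation.
-/

set_option autoImplicit false

namespace Pool.Agent.W172.SP

open Finset Pool.Agent.H306R2.RZ Filter

/-- `d` is a negative fundamental discriminant, the discriminant of an imaginary quadratic field. -/
def IsNegFundDisc (d : ℤ) : Prop :=
  d < 0 ∧ ((d % 4 = 1 ∧ Squarefree d) ∨
    ∃ m : ℤ, d = 4 * m ∧ (m % 4 = 2 ∨ m % 4 = 3) ∧ Squarefree m)

/-- The number of primes `p < (log |d|)² (log log |d|)²` that split in `ℚ(√d)`, that is, `p` does not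
divide `d` and `d` is a square modulo `4 p`. -/
noncomputable def splitCount (d : ℤ) : ℕ :=
  Set.ncard {p : ℕ | p.Prime ∧
    ((p : ℝ) < Real.log (|(d : ℝ)|) ^ 2 * Real.log (Real.log (|(d : ℝ)|)) ^ 2) ∧
    ¬ ((p : ℤ) ∣ d) ∧ ∃ x : ℤ, (4 * (p : ℤ)) ∣ x ^ 2 - d}

/-- The number of all primes `p < (log |d|)² (log log |d|)²`. -/
noncomputable def primeCount (d : ℤ) : ℕ :=
  Set.ncard {p : ℕ | p.Prime ∧
    ((p : ℝ) < Real.log (|(d : ℝ)|) ^ 2 * Real.log (Real.log (|(d : ℝ)|)) ^ 2)}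

/-- `|d|` or `|d| / 4`, whichever is squarefree -/
def mabs (d : ℤ) : ℕ := if d % 4 = 1 then d.natAbs else d.natAbs / 4

lemma mabs_spec {d : ℤ} (hd : IsNegFundDisc d) :
    (d % 4 = 1 ∧ -(mabs d : ℤ) = d ∧ Squarefree (mabs d)) ∨
    (d % 4 = 0 ∧ 4 * -(mabs d : ℤ) = d ∧ Squarefree (mabs d) ∧ (mabs d : ℤ) % 4 ≠ 3) := by
  obtain ⟨hneg, ⟨h1, h2⟩ | ⟨m, rfl, h1, h2⟩⟩ := hd
  · left
    unfold mabs
    rw [if_pos h1]
    exact ⟨h1, by omega, Int.squarefree_natAbs.2 h2⟩
  · right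
    have h0 : (4 * m) % 4 = 0 := by omega
    have e1 : (4 * m).natAbs / 4 = m.natAbs := by omega
    unfold mabs
    rw [if_neg (by omega), e1]
    refine ⟨h0, by omega, Int.squarefree_natAbs.2 h2, by omega⟩

lemma mabs_inj {d d' : ℤ} (hd : IsNegFundDisc d) (hd' : IsNegFundDisc d') (h : mabs d = mabs d') :
    d = d' := by
  rcases mabs_spec hd with ⟨a1, a2, _⟩ | ⟨a1, a2, _, a3⟩ <;>
    rcases mabs_spec hd' with ⟨b1, b2, _⟩ | ⟨b1, b2, _, b3⟩ <;> rw [h] at a2 <;> omega

lemma mabs_mem {d : ℤ} (hd : IsNegFundDisc d) {X : ℕ} (hX : |d| ≤ X) : mabs d ∈ sqf X := by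
  unfold sqf
  rw [mem_filter, mem_Icc]
  have h0 := hd.1
  have habs : |d| = -d := abs_of_neg h0
  rcases mabs_spec hd with ⟨a1, a2, a3⟩ | ⟨a1, a2, a3, _⟩
  · exact ⟨⟨by omega, by omega⟩, a3⟩
  · exact ⟨⟨by omega, by omega⟩, a3⟩

lemma js_mabs {d : ℤ} (hd : IsNegFundDisc d) {p : ℕ} (hp : Odd p) :
    js (-(mabs d : ℤ)) p = js d p := by
  rcases mabs_spec hd with ⟨_, a2, _⟩ | ⟨_, a2, _, _⟩
  · rw [a2]
  · have h1 : js d p = js ((2 : ℤ) ^ 2) p * js (-(mabs d : ℤ)) p := by
      rw [← js_mul_l, show ((2 : ℤ) ^ 2) * -(mabs d : ℤ) = d from by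
        rw [show ((2 : ℤ) ^ 2) = 4 by norm_num]; exact a2]
    have h2 : js ((2 : ℤ) ^ 2) p = 1 := by
      unfold js
      rw [jacobiSym.sq_one']
      · norm_num
      · have : Nat.Coprime 2 p := (Nat.coprime_two_left).2 hp
        rw [Int.gcd_def]
        simpa using this
    rw [h1, h2, one_mul]

lemma split_iff {d : ℤ} (hd : d % 4 = 0 ∨ d % 4 = 1) {p : ℕ} (hp : p.Prime) (hodd : Odd p) :
    (¬ ((p : ℤ) ∣ d) ∧ ∃ x : ℤ, (4 * (p : ℤ)) ∣ x ^ 2 - d) ↔ js d p = 1 := by
  have : Fact p.Prime := ⟨hp⟩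
  have hjs : js d p = 1 ↔ legendreSym p d = 1 := by
    unfold js
    rw [← jacobiSym.legendreSym.to_jacobiSym]
    exact_mod_cast Iff.rfl
  rw [hjs]
  constructor
  · rintro ⟨h1, x, h2⟩
    have h0 : (d : ZMod p) ≠ 0 := by
      rw [Ne, ZMod.intCast_zmod_eq_zero_iff_dvd]
      exact h1
    rw [legendreSym.eq_one_iff p h0]
    refine ⟨(x : ZMod p), ?_⟩
    have h3 : (p : ℤ) ∣ x ^ 2 - d := (Dvd.intro_left 4 rfl).trans h2
    have h4 := (ZMod.intCast_zmod_eq_zero_iff_dvd _ p).2 h3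
    push_cast at h4
    rw [← sq]
    exact (sub_eq_zero.1 h4).symm
  · intro h
    have h0 : (d : ZMod p) ≠ 0 := by
      intro h0
      rw [(legendreSym.eq_zero_iff p d).2 h0] at h
      exact absurd h (by norm_num)
    refine ⟨fun h1 => h0 ((ZMod.intCast_zmod_eq_zero_iff_dvd _ p).2 h1), ?_⟩
    rw [legendreSym.eq_one_iff p h0] at h
    obtain ⟨y, hy⟩ := h
    obtain ⟨z, rfl⟩ : ∃ z : ℤ, (z : ZMod p) = y := ZMod.intCast_surjective y
    have h3 : (p : ℤ) ∣ z ^ 2 - d := by
      rw [← ZMod.intCast_zmod_eq_zero_iff_dvd]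
      push_cast
      rw [hy]
      ring
    obtain ⟨q, hq⟩ := hodd
    -- choose `x ≡ z mod p` of the right parity
    obtain ⟨x, hx1, hx2⟩ : ∃ x : ℤ, (p : ℤ) ∣ x - z ∧ (x - d) % 2 = 0 := by
      rcases Int.emod_two_eq_zero_or_one (z - d) with h | h
      · exact ⟨z, by simp, h⟩
      · refine ⟨z + p, by simp, ?_⟩
        have : (p : ℤ) = 2 * q + 1 := by exact_mod_cast hq
        omega
    have h4 : (p : ℤ) ∣ x ^ 2 - d := by
      have : x ^ 2 - d = (x - z) * (x + z) + (z ^ 2 - d) := by ring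
      rw [this]
      exact dvd_add (hx1.mul_right _) h3
    have h5 : (4 : ℤ) ∣ x ^ 2 - d := by
      rcases Int.even_or_odd' x with ⟨w, hw | hw⟩
      · have : d % 4 = 0 := by omega
        obtain ⟨d', hd'⟩ : ∃ d', d = 4 * d' := ⟨d / 4, by omega⟩
        exact ⟨w ^ 2 - d', by rw [hw, hd']; ring⟩
      · have : d % 4 = 1 := by omega
        obtain ⟨d', hd'⟩ : ∃ d', d = 4 * d' + 1 := ⟨d / 4, by omega⟩
        exact ⟨w ^ 2 + w - d', by rw [hw, hd']; ring⟩
    refine ⟨x, ?_⟩
    apply IsCoprime.mul_dvd _ h5 h4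
    rw [Int.isCoprime_iff_gcd_eq_one]
    have h6 : Nat.Coprime 4 p := by
      have : Nat.Coprime 2 p := (Nat.coprime_two_left).2 ⟨q, hq⟩
      exact Nat.Coprime.pow_left 2 this
    exact h6

lemma sq_eq_one_iff_of_side {x : ℝ} (h : x ^ 2 = 1) : x = 1 ∨ x = -1 := by
  have : (x - 1) * (x + 1) = 0 := by linear_combination h
  rcases mul_eq_zero.1 this with h | h
  · left; linarith
  · right; linarith

lemma card_primeFactors_le {n : ℕ} (hn : n ≠ 0) : (n.primeFactors.card : ℝ) ≤ 2 * Real.log n := by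
  have h1 : 2 ^ n.primeFactors.card ≤ n := by
    calc 2 ^ n.primeFactors.card = ∏ _p ∈ n.primeFactors, 2 := by rw [prod_const]
      _ ≤ ∏ p ∈ n.primeFactors, p := Finset.prod_le_prod' fun p hp => (Nat.prime_of_mem_primeFactors hp).two_le
      _ ≤ n := Nat.le_of_dvd (Nat.pos_of_ne_zero hn) (Nat.prod_primeFactors_dvd n)
  have h2 : ((2 : ℝ) ^ n.primeFactors.card) ≤ n := by exact_mod_cast h1
  have h3 := Real.log_le_log (by positivity) h2
  rw [Real.log_pow] at h3
  have h4 : (0.6931471803 : ℝ) < Real.log 2 := Real.log_two_gt_d9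
  have h5 : (0 : ℝ) ≤ n.primeFactors.card := by positivity
  nlinarith

/-- comparison of the counts with the character sum -/
lemma compare {d : ℤ} (hd : IsNegFundDisc d) (Y : ℕ) (g : ℝ)
    (hg : g = Real.log (|(d : ℝ)|) ^ 2 * Real.log (Real.log (|(d : ℝ)|)) ^ 2)
    (hgY : g ≤ Y + 1) :
    |(2 * (splitCount d : ℝ) - primeCount d) - ∑ p ∈ oddPrimes Y, js (-(mabs d : ℤ)) p| ≤
      2 * Real.log d.natAbs + 1 + (Y + 1 - g) ∧
    ((oddPrimes Y).card : ℝ) ≤ primeCount d + (Y + 1 - g) := by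
  classical
  set P := oddPrimes Y with hP
  set Q := (Icc 1 Y).filter (fun p : ℕ => p.Prime ∧ (p : ℝ) < g) with hQ
  have hd4 : d % 4 = 0 ∨ d % 4 = 1 := by
    rcases mabs_spec hd with ⟨a1, _⟩ | ⟨a1, _⟩
    · exact Or.inr a1
    · exact Or.inl a1
  have hmemQ : ∀ p : ℕ, p ∈ Q ↔ p.Prime ∧ (p : ℝ) < g := by
    intro p
    rw [hQ, mem_filter, mem_Icc]
    constructor
    · rintro ⟨_, h⟩
      exact h
    · rintro ⟨h1, h2⟩
      refine ⟨⟨h1.pos, ?_⟩, h1, h2⟩
      have h3 : (p : ℝ) < (Y : ℝ) + 1 := by linarith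
      have h4 : p < Y + 1 := by exact_mod_cast h3
      omega
  set sp : ℕ → Prop := fun p => ¬ ((p : ℤ) ∣ d) ∧ ∃ x : ℤ, (4 * (p : ℤ)) ∣ x ^ 2 - d with hsp
  have hpc : primeCount d = Q.card := by
    unfold primeCount
    rw [← hg, ← Set.ncard_coe_finset]
    congr 1
    ext p
    rw [Set.mem_ofPred_eq, mem_coe, hmemQ]
  have hsc : splitCount d = (Q.filter sp).card := by
    unfold splitCount
    rw [← hg, ← Set.ncard_coe_finset]
    congr 1
    ext p
    rw [Set.mem_ofPred_eq, mem_coe, mem_filter, hmemQ]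
    constructor
    · rintro ⟨h1, h2, h3⟩
      exact ⟨⟨h1, h2⟩, h3⟩
    · rintro ⟨⟨h1, h2⟩, h3⟩
      exact ⟨h1, h2, h3⟩
  -- the two sums
  have hsum : 2 * (splitCount d : ℝ) - primeCount d = ∑ p ∈ Q, (if sp p then (1 : ℝ) else -1) := by
    rw [hpc, hsc]
    have h1 : ∀ p ∈ Q, (if sp p then (1 : ℝ) else -1) = 2 * (if sp p then (1 : ℝ) else 0) - 1 := by
      intro p _
      split_ifs <;> norm_num
    rw [sum_congr rfl h1, sum_sub_distrib, ← mul_sum, sum_boole]
    simp
  -- number of elements of `P \ Q`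
  have hPQ : ((P \ Q).card : ℝ) ≤ Y + 1 - g := by
    have hsub : P \ Q ⊆ Icc ⌈g⌉₊ Y := by
      intro p hp
      rw [Finset.mem_sdiff, hP, mem_oddPrimes, hmemQ] at hp
      rw [mem_Icc]
      refine ⟨?_, hp.1.2.2⟩
      have : ¬ (p : ℝ) < g := fun h => hp.2 ⟨hp.1.1, h⟩
      push Not at this
      exact Nat.ceil_le.2 this
    have h1 := card_le_card hsub
    rw [Nat.card_Icc] at h1
    have hg0 : 0 ≤ g := by
      rw [hg]
      positivity
    have h2 : ⌈g⌉₊ ≤ Y + 1 := by
      apply Nat.ceil_le.2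
      push_cast
      exact hgY
    have h3 : ((P \ Q).card : ℝ) ≤ ((Y + 1 - ⌈g⌉₊ : ℕ) : ℝ) := by exact_mod_cast h1
    rw [Nat.cast_sub h2] at h3
    push_cast at h3
    have h4 := Nat.le_ceil g
    linarith
  -- `Q \ P` contains at most the prime `2`
  have hQP : ((Q \ P).card : ℝ) ≤ 1 := by
    have hsub : Q \ P ⊆ {2} := by
      intro p hp
      rw [Finset.mem_sdiff, hmemQ, hP, mem_oddPrimes] at hp
      rw [mem_singleton]
      rcases hp.1.1.eq_two_or_odd' with h | h
      · exact h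
      · exfalso
        apply hp.2
        refine ⟨hp.1.1, h, ?_⟩
        have h3 : (p : ℝ) < (Y : ℝ) + 1 := by linarith [hp.1.2]
        have h4 : p < Y + 1 := by exact_mod_cast h3
        omega
    have := card_le_card hsub
    rw [card_singleton] at this
    exact_mod_cast this
  have habs1 : ∀ p : ℕ, |(if sp p then (1 : ℝ) else -1)| ≤ 1 := by
    intro p
    split_ifs <;> norm_num
  have habs2 : ∀ p : ℕ, |js (-(mabs d : ℤ)) p| ≤ 1 := by
    intro p
    have := js_sq_le (-(mabs d : ℤ)) p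
    rw [← sq_abs] at this
    nlinarith [abs_nonneg (js (-(mabs d : ℤ)) p)]
  have hdec : (∑ p ∈ Q, (if sp p then (1 : ℝ) else -1)) - ∑ p ∈ P, js (-(mabs d : ℤ)) p =
      ∑ p ∈ Q ∩ P, ((if sp p then (1 : ℝ) else -1) - js (-(mabs d : ℤ)) p) +
      ∑ p ∈ Q \ P, (if sp p then (1 : ℝ) else -1) - ∑ p ∈ P \ Q, js (-(mabs d : ℤ)) p := by
    have h1 := Finset.sum_inter_add_sum_sdiff Q P (fun p => if sp p then (1 : ℝ) else -1)
    have h2 := Finset.sum_inter_add_sum_sdiff P Q (fun p => js (-(mabs d : ℤ)) p)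
    rw [sum_sub_distrib, ← h1, ← h2, inter_comm P Q]
    ring
  have hmid : |∑ p ∈ Q ∩ P, ((if sp p then (1 : ℝ) else -1) - js (-(mabs d : ℤ)) p)| ≤
      2 * Real.log d.natAbs := by
    have hdn : d.natAbs ≠ 0 := by
      have := hd.1
      omega
    calc |∑ p ∈ Q ∩ P, ((if sp p then (1 : ℝ) else -1) - js (-(mabs d : ℤ)) p)|
        ≤ ∑ p ∈ Q ∩ P, |(if sp p then (1 : ℝ) else -1) - js (-(mabs d : ℤ)) p| :=
          abs_sum_le_sum_abs _ _
      _ ≤ ∑ p ∈ Q ∩ P, (if (p : ℤ) ∣ d then (1 : ℝ) else 0) := by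
          apply sum_le_sum
          intro p hp
          rw [mem_inter, hmemQ, hP, mem_oddPrimes] at hp
          obtain ⟨⟨hpp, _⟩, _, hodd, _⟩ := hp
          have hiff := split_iff hd4 hpp hodd
          rw [js_mabs hd hodd]
          by_cases hs : sp p
          · rw [if_pos hs, hiff.1 hs, if_neg hs.1]
            norm_num
          · rw [if_neg hs]
            have hne : js d p ≠ 1 := fun h => hs (hiff.2 h)
            by_cases hdvd : (p : ℤ) ∣ d
            · rw [if_pos hdvd]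
              rcases js_val d p with h | h
              · rw [h]; norm_num
              · rcases sq_eq_one_iff_of_side h with h | h
                · exact absurd h hne
                · rw [h]; norm_num
            · rw [if_neg hdvd]
              have : Fact p.Prime := ⟨hpp⟩
              have hne0 : js d p ≠ 0 := by
                unfold js
                rw [← jacobiSym.legendreSym.to_jacobiSym]
                intro h
                have h' : legendreSym p d = 0 := by exact_mod_cast h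
                rw [legendreSym.eq_zero_iff, ZMod.intCast_zmod_eq_zero_iff_dvd] at h'
                exact hdvd h'
              rcases js_val d p with h | h
              · exact absurd h hne0
              · rcases sq_eq_one_iff_of_side h with h | h
                · exact absurd h hne
                · rw [h]; norm_num
      _ = (((Q ∩ P).filter fun p : ℕ => (p : ℤ) ∣ d).card : ℝ) := by
          rw [sum_boole]
      _ ≤ (d.natAbs.primeFactors.card : ℝ) := by
          have : ((Q ∩ P).filter fun p : ℕ => (p : ℤ) ∣ d) ⊆ d.natAbs.primeFactors := by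
            intro p hp
            rw [mem_filter, mem_inter, hmemQ] at hp
            rw [Nat.mem_primeFactors]
            exact ⟨hp.1.1.1, Int.natCast_dvd.1 hp.2, hdn⟩
          exact_mod_cast card_le_card this
      _ ≤ _ := card_primeFactors_le hdn
  constructor
  · rw [hsum, hdec]
    have h1 : |∑ p ∈ Q \ P, (if sp p then (1 : ℝ) else -1)| ≤ 1 := by
      refine (abs_sum_le_sum_abs _ _).trans ?_
      refine (sum_le_sum fun p _ => habs1 p).trans ?_
      simpa using hQP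
    have h2 : |∑ p ∈ P \ Q, js (-(mabs d : ℤ)) p| ≤ Y + 1 - g := by
      refine (abs_sum_le_sum_abs _ _).trans ?_
      refine (sum_le_sum fun p _ => habs2 p).trans ?_
      simpa using hPQ
    refine (abs_sub _ _).trans ?_
    have h3 := abs_add_le (∑ p ∈ Q ∩ P, ((if sp p then (1 : ℝ) else -1) - js (-(mabs d : ℤ)) p))
      (∑ p ∈ Q \ P, (if sp p then (1 : ℝ) else -1))
    linarith
  · rw [hpc]
    have h1 : P.card ≤ (P \ Q).card + Q.card := card_le_card_sdiff_add_card
    have h2 : (P.card : ℝ) ≤ (P \ Q).card + Q.card := by exact_mod_cast h1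
    linarith

end Pool.Agent.W172.SP
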