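import Mathlib
import Pool.Agent.W172.SP.Disc

/-!
Dyadic summation.
-/

set_option autoImplicit false

namespace Pool.Agent.W172.SP

open Finset Pool.Agent.H306R2.RZ Filter

/-- the exceptional discriminants up to `X` -/
def Bad (δ : ℝ) (X : ℕ) : Set ℤ :=
  {d : ℤ | IsNegFundDisc d ∧ |d| ≤ (X : ℤ) ∧
    δ * (primeCount d : ℝ) < |(splitCount d : ℝ) - (primeCount d : ℝ) / 2|}

lemma bad_subset (δ : ℝ) (X : ℕ) : Bad δ X ⊆ (Icc (-(X : ℤ)) (-1) : Finset ℤ) := by
  rintro d ⟨h1, h2, _⟩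
  rw [mem_coe, mem_Icc]
  have := h1.1
  rw [abs_of_neg this] at h2
  omega

lemma bad_finite (δ : ℝ) (X : ℕ) : (Bad δ X).Finite :=
  (Finset.finite_toSet _).subset (bad_subset δ X)

lemma bad_card_le (δ : ℝ) (X : ℕ) : (Bad δ X).ncard ≤ X := by
  have h1 := Set.ncard_le_ncard (bad_subset δ X) (Finset.finite_toSet _)
  rw [Set.ncard_coe_finset, Int.card_Icc] at h1
  omega

/-- the difference of `g` on a dyadic block -/
lemma gg_diff {L L' l : ℝ} (hl : l = Real.log L) (hl1 : 1 ≤ l) (hL : L' ≤ L) (hL' : L ≤ L' + 1)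
    (h1 : 1 ≤ L') : L ^ 2 * l ^ 2 - L' ^ 2 * Real.log L' ^ 2 ≤ 4 * L * l ^ 2 := by
  set l' := Real.log L' with hl'
  have hl0 : 0 ≤ l' := Real.log_nonneg h1
  have hll : l' ≤ l := by rw [hl, hl']; exact Real.log_le_log (by linarith) hL
  have hd : L' * (l - l') ≤ L - L' := by
    have h2 : l - l' = Real.log (L / L') := by
      rw [hl, hl', Real.log_div (by linarith) (by linarith)]
    have h3 := Real.log_le_sub_one_of_pos (show 0 < L / L' by
      apply div_pos <;> linarith)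
    rw [h2]
    calc L' * Real.log (L / L') ≤ L' * (L / L' - 1) := mul_le_mul_of_nonneg_left h3 (by linarith)
      _ = L - L' := by
          have : L' ≠ 0 := by linarith
          field_simp
  have e1 : L ^ 2 * l ^ 2 - L' ^ 2 * l' ^ 2 = (L * l - L' * l') * (L * l + L' * l') := by ring
  have h4 : L * l - L' * l' ≤ l + 1 := by nlinarith
  have h5 : L * l + L' * l' ≤ 2 * (L * l) := by
    have : L' * l' ≤ L * l := mul_le_mul hL hll hl0 (by linarith)
    linarith
  have h6 : 0 ≤ L * l - L' * l' := by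
    have : L' * l' ≤ L * l := mul_le_mul hL hll hl0 (by linarith)
    linarith
  have h7 : 0 ≤ L * l := by nlinarith
  rw [e1]
  calc (L * l - L' * l') * (L * l + L' * l') ≤ (l + 1) * (2 * (L * l)) := by
        apply mul_le_mul h4 h5 (by nlinarith) (by linarith)
    _ ≤ (2 * l) * (2 * (L * l)) := by
        apply mul_le_mul_of_nonneg_right (by linarith) (by linarith)
    _ = 4 * L * l ^ 2 := by ring

theorem step (ε δ : ℝ) (hε : 0 < ε) (hδ : 0 < δ) : ∃ C : ℝ, 0 < C ∧ ∀ᶠ X : ℕ in atTop,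
    ((Bad δ X).ncard : ℝ) ≤ (Bad δ (X / 2)).ncard + C * (X : ℝ) ^ (1 / 2 + ε) := by
  obtain ⟨C, hC, hblock⟩ := block ε δ hε hδ
  refine ⟨C, hC, ?_⟩
  have hlog : Tendsto (fun X : ℕ => Real.log (X : ℝ)) atTop atTop :=
    Real.tendsto_log_atTop.comp tendsto_natCast_atTop_atTop
  filter_upwards [hblock, eventually_facts (ε / 2) (16 * (10 + 8 / δ)) (by linarith),
    eventually_ge_atTop 4, hlog.eventually_ge_atTop 3] with X hb hX hX4 hL3
  obtain ⟨-, hl1, -, hLK, -, hP⟩ := hX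
  set L := Real.log (X : ℝ) with hL
  set l := Real.log L with hl
  set Y := ⌊gg (X : ℝ)⌋₊ with hY
  set n : ℝ := ((oddPrimes Y).card : ℝ) with hn
  have hXr : (4 : ℝ) ≤ X := by exact_mod_cast hX4
  have hX0 : (0 : ℝ) < X := by linarith
  have hg : gg (X : ℝ) = L ^ 2 * l ^ 2 := rfl
  have hlL : l ≤ L := by
    have := Real.log_le_sub_one_of_pos (show 0 < L by linarith)
    linarith
  have hg9 : 9 ≤ gg (X : ℝ) := by
    rw [hg]
    have : 9 ≤ L ^ 2 := by nlinarith
    have : 1 ≤ l ^ 2 := by nlinarith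
    nlinarith
  have hYle : (Y : ℝ) ≤ gg X := Nat.floor_le (by linarith)
  have hYlt : gg (X : ℝ) < Y + 1 := Nat.lt_floor_add_one _
  have hYhalf : gg (X : ℝ) / 2 ≤ Y := by linarith
  have hY1 : (1 : ℝ) < Y := by linarith
  have hlogY0 : 0 < Real.log Y := Real.log_pos hY1
  have hlogY : Real.log Y ≤ 4 * l := by
    calc Real.log Y ≤ Real.log (L ^ 2 * l ^ 2) := Real.log_le_log (by linarith) (by rw [← hg]; exact hYle)
      _ = 2 * Real.log L + 2 * Real.log l := by
          rw [Real.log_mul (by positivity) (by positivity), Real.log_pow, Real.log_pow]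
          norm_num
      _ ≤ 2 * l + 2 * l := by
          have : Real.log l ≤ l - 1 := Real.log_le_sub_one_of_pos (by linarith)
          linarith
      _ = 4 * l := by ring
  -- `n ≥ L² l / 16`
  have hn1 : L ^ 2 * l / 16 ≤ n := by
    refine le_trans ?_ hP
    rw [le_div_iff₀ (by positivity)]
    calc L ^ 2 * l / 16 * (2 * Real.log Y) ≤ L ^ 2 * l / 16 * (2 * (4 * l)) := by
          apply mul_le_mul_of_nonneg_left (by linarith) (by positivity)
      _ = L ^ 2 * l ^ 2 / 2 := by ring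
      _ ≤ Y := by rw [← hg]; exact hYhalf
  -- `δ n ≥ (10 δ + 8) L l²`
  have hn2 : (10 * δ + 8) * (L * l ^ 2) ≤ δ * n := by
    have h1 : δ * (16 * (10 + 8 / δ) * l) ≤ δ * L := mul_le_mul_of_nonneg_left hLK hδ.le
    have h2 : δ * (16 * (10 + 8 / δ) * l) = 16 * (10 * δ + 8) * l := by
      field_simp
    rw [h2] at h1
    calc (10 * δ + 8) * (L * l ^ 2) = (16 * (10 * δ + 8) * l) * (L * l) / 16 := by ring
      _ ≤ (δ * L) * (L * l) / 16 := by
          have := mul_le_mul_of_nonneg_right h1 (show 0 ≤ L * l by positivity)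
          linarith
      _ = δ * (L ^ 2 * l / 16) := by ring
      _ ≤ δ * n := mul_le_mul_of_nonneg_left hn1 hδ.le
  set E := (sqf X).filter fun m : ℕ => δ * n ≤ |∑ p ∈ oddPrimes Y, js (-(m : ℤ)) p| with hE
  -- bad discriminants in the block give elements of `E`
  have hkey : ∀ d ∈ Bad δ X \ Bad δ (X / 2), mabs d ∈ E := by
    rintro d ⟨⟨h1, h2, h3⟩, h4⟩
    have h5 : ((X / 2 : ℕ) : ℤ) < |d| := by
      by_contra hcon
      push Not at hcon
      exact h4 ⟨h1, hcon, h3⟩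
    rw [hE, mem_filter]
    refine ⟨mabs_mem h1 h2, ?_⟩
    have hdr : |(d : ℝ)| ≤ X := by exact_mod_cast h2
    have h6 : (X : ℝ) / 2 ≤ |(d : ℝ)| := by
      have h7 : (X : ℤ) ≤ 2 * |d| := by omega
      have h8 : ((X : ℤ) : ℝ) ≤ ((2 * |d| : ℤ) : ℝ) := by exact_mod_cast h7
      push_cast at h8
      linarith
    set D := |(d : ℝ)| with hD
    have hD0 : 0 < D := by linarith
    set L' := Real.log D with hL'
    have hLL' : L' ≤ L := Real.log_le_log hD0 hdr
    have hLL2 : L ≤ L' + 1 := by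
      have h7 : Real.log (X / 2) ≤ L' := Real.log_le_log (by linarith) h6
      rw [Real.log_div (by linarith) (by norm_num)] at h7
      have := Real.log_two_lt_d9
      linarith
    have hL'1 : 1 ≤ L' := by linarith
    have hdiff := gg_diff (L := L) (L' := L') (l := l) hl hl1 hLL' hLL2 hL'1
    set g := L' ^ 2 * Real.log L' ^ 2 with hgdef
    have hgle : g ≤ Y + 1 := by
      have h7 : g ≤ L ^ 2 * l ^ 2 := by
        rw [hgdef]
        apply mul_le_mul
        · exact pow_le_pow_left₀ (by linarith) hLL' 2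
        · apply pow_le_pow_left₀ (Real.log_nonneg hL'1)
          rw [hl]
          exact Real.log_le_log (by linarith) hLL'
        · positivity
        · positivity
      rw [← hg] at h7
      linarith
    obtain ⟨hc1, hc2⟩ := compare h1 Y g rfl hgle
    have hYg : (Y : ℝ) + 1 - g ≤ 4 * L * l ^ 2 + 1 := by
      rw [← hg] at hdiff
      linarith
    have hnat : Real.log (d.natAbs : ℝ) = L' := by
      rw [hL', hD, Nat.cast_natAbs]
      push_cast
      rfl
    rw [hnat] at hc1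
    -- deviation
    have h9 : 2 * δ * (primeCount d : ℝ) < |2 * (splitCount d : ℝ) - primeCount d| := by
      have h10 : |2 * (splitCount d : ℝ) - primeCount d| =
          2 * |(splitCount d : ℝ) - (primeCount d : ℝ) / 2| := by
        rw [show 2 * (splitCount d : ℝ) - primeCount d =
          2 * ((splitCount d : ℝ) - (primeCount d : ℝ) / 2) by ring, abs_mul, abs_two]
      rw [h10]
      linarith
    have h11 : |2 * (splitCount d : ℝ) - primeCount d| ≤
        |∑ p ∈ oddPrimes Y, js (-(mabs d : ℤ)) p| + (2 * L' + 1 + (Y + 1 - g)) := by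
      have := abs_add_le ((2 * (splitCount d : ℝ) - primeCount d) -
        ∑ p ∈ oddPrimes Y, js (-(mabs d : ℤ)) p) (∑ p ∈ oddPrimes Y, js (-(mabs d : ℤ)) p)
      rw [sub_add_cancel] at this
      linarith
    have hLl2 : L ≤ L * l ^ 2 :=
      le_mul_of_one_le_right (by linarith) (one_le_pow₀ hl1)
    have h12 : δ * n ≤ δ * (primeCount d : ℝ) + δ * (4 * L * l ^ 2 + 1) := by
      have : n ≤ (primeCount d : ℝ) + (4 * L * l ^ 2 + 1) := by linarith
      calc δ * n ≤ δ * ((primeCount d : ℝ) + (4 * L * l ^ 2 + 1)) :=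
            mul_le_mul_of_nonneg_left this hδ.le
        _ = _ := by ring
    have hZ1 : (1 : ℝ) ≤ L * l ^ 2 := by linarith
    have h13 : δ * (4 * L * l ^ 2 + 1) ≤ 5 * (δ * (L * l ^ 2)) := by
      calc δ * (4 * L * l ^ 2 + 1) ≤ δ * (4 * L * l ^ 2 + L * l ^ 2) :=
            mul_le_mul_of_nonneg_left (by linarith) hδ.le
        _ = 5 * (δ * (L * l ^ 2)) := by ring
    have h14 : (10 * δ + 8) * (L * l ^ 2) = 10 * (δ * (L * l ^ 2)) + 8 * (L * l ^ 2) := by ring
    rw [h14] at hn2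
    have h15 : 2 * δ * (primeCount d : ℝ) = 2 * (δ * (primeCount d : ℝ)) := by ring
    rw [h15] at h9
    have h16 : 4 * L * l ^ 2 = 4 * (L * l ^ 2) := by ring
    rw [h16] at hYg
    linarith
  have hinj : Set.InjOn mabs (Bad δ X \ Bad δ (X / 2)) := by
    intro d hd d' hd' h
    exact mabs_inj hd.1.1 hd'.1.1 h
  have hfin : (Bad δ X \ Bad δ (X / 2)).Finite := (bad_finite δ X).subset Set.sdiff_subset
  have hcard : ((Bad δ X \ Bad δ (X / 2)).ncard : ℝ) ≤ C * (X : ℝ) ^ (1 / 2 + ε) := by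
    have h1 : (Bad δ X \ Bad δ (X / 2)).ncard ≤ E.card := by
      rw [← Set.ncard_coe_finset E]
      exact Set.ncard_le_ncard_of_injOn mabs (fun d hd => hkey d hd) hinj (Finset.finite_toSet _)
    have h2 : ((Bad δ X \ Bad δ (X / 2)).ncard : ℝ) ≤ E.card := by exact_mod_cast h1
    exact h2.trans hb
  have hunion : (Bad δ X).ncard ≤ (Bad δ (X / 2)).ncard + (Bad δ X \ Bad δ (X / 2)).ncard := by
    have h1 : Bad δ X ⊆ Bad δ (X / 2) ∪ (Bad δ X \ Bad δ (X / 2)) := by
      intro d hd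
      by_cases h : d ∈ Bad δ (X / 2)
      · exact Or.inl h
      · exact Or.inr ⟨hd, h⟩
    have h2 := Set.ncard_le_ncard h1 ((bad_finite δ _).union hfin)
    exact h2.trans (Set.ncard_union_le _ _)
  have : ((Bad δ X).ncard : ℝ) ≤ (Bad δ (X / 2)).ncard + (Bad δ X \ Bad δ (X / 2)).ncard := by
    exact_mod_cast hunion
  linarith

theorem main (ε δ : ℝ) (hε : 0 < ε) (hδ : 0 < δ) : ∃ C : ℝ, ∀ X : ℕ, 1 ≤ X →
    ((Bad δ X).ncard : ℝ) ≤ C * (X : ℝ) ^ (1 / 2 + ε) := by
  obtain ⟨C, hC, h⟩ := step ε δ hε hδ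
  obtain ⟨X₀, hX₀⟩ := eventually_atTop.1 h
  refine ⟨4 * C + X₀ + 2, ?_⟩
  have hA : (0 : ℝ) < 4 * C + X₀ + 2 := by positivity
  intro X
  induction X using Nat.strong_induction_on with
  | _ X ih =>
    intro hX
    have hX1 : (1 : ℝ) ≤ X := by exact_mod_cast hX
    have hX0 : (0 : ℝ) < X := by linarith
    rcases Nat.lt_or_ge X (X₀ + 2) with hlt | hge
    · have h1 : ((Bad δ X).ncard : ℝ) ≤ X := by exact_mod_cast bad_card_le δ X
      have h2 : (X : ℝ) ≤ X₀ + 2 := by exact_mod_cast hlt.le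
      have h3 : (1 : ℝ) ≤ (X : ℝ) ^ (1 / 2 + ε) := Real.one_le_rpow hX1 (by linarith)
      have h4 : 4 * C + X₀ + 2 ≤ (4 * C + X₀ + 2) * (X : ℝ) ^ (1 / 2 + ε) := by nlinarith
      linarith
    · have h1 := hX₀ X (by omega)
      have h2 := ih (X / 2) (by omega) (by omega)
      have h3 : (((X / 2 : ℕ) : ℝ)) ^ (1 / 2 + ε) ≤ 3 / 4 * (X : ℝ) ^ (1 / 2 + ε) := by
        have h4 : (((X / 2 : ℕ) : ℝ)) ≤ (X : ℝ) / 2 := Nat.cast_div_le
        have h5 : (((X / 2 : ℕ) : ℝ)) ^ (1 / 2 + ε) ≤ ((X : ℝ) / 2) ^ (1 / 2 + ε) :=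
          Real.rpow_le_rpow (by positivity) h4 (by linarith)
        have h6 : ((X : ℝ) / 2) ^ (1 / 2 + ε) = (X : ℝ) ^ (1 / 2 + ε) * (1 / 2 : ℝ) ^ (1 / 2 + ε) := by
          rw [← Real.mul_rpow hX0.le (by norm_num)]
          congr 1
          ring
        have h7 : (1 / 2 : ℝ) ^ (1 / 2 + ε) ≤ 3 / 4 := by
          calc (1 / 2 : ℝ) ^ (1 / 2 + ε) ≤ (1 / 2 : ℝ) ^ (1 / 2 : ℝ) :=
                Real.rpow_le_rpow_of_exponent_ge (by norm_num) (by norm_num) (by linarith)
            _ ≤ 3 / 4 := by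
                rw [← Real.sqrt_eq_rpow]
                apply Real.sqrt_le_iff.2
                norm_num
        rw [h6] at h5
        have h8 : (0 : ℝ) ≤ (X : ℝ) ^ (1 / 2 + ε) := by positivity
        nlinarith
      have h9 : (0 : ℝ) ≤ (X : ℝ) ^ (1 / 2 + ε) := by positivity
      have h10 : (4 * C + X₀ + 2) * (((X / 2 : ℕ) : ℝ)) ^ (1 / 2 + ε) ≤
          (4 * C + X₀ + 2) * (3 / 4 * (X : ℝ) ^ (1 / 2 + ε)) := mul_le_mul_of_nonneg_left h3 hA.le
      have h11 : (0 : ℝ) ≤ X₀ := by positivity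
      nlinarith

end Pool.Agent.W172.SP
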